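import Pool.Graph.R_pool_sql_team_seeded_f72693b1.W989.FT.Alg

/-!
# Algorithms for total flow time under an energy budget with a large additive error
-/

set_option autoImplicit false

namespace Pool.Agent.KS6_76.FTS

open Pool.Agent.NPC Pool.Agent.W989.FT

/-- An instance: the jobs (release times and works) and the energy budget. -/
abbrev Inst := Jobs × ℚ

/-- Release times are nonnegative, works and the energy budget are positive. -/
def Ok (P : Inst) : Prop := (∀ j ∈ P.1, 0 ≤ j.1 ∧ 0 < j.2) ∧ 0 < P.2

/-- The sum of all the numbers of an instance: the energy budget, the release times and the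
works. -/
def mag (P : Inst) : ℚ := P.2 + (P.1.map fun j => j.1 + j.2).sum

/-- The allowed error `2 ^ (n ^ K + K) * M ^ δ`, where `n` is the number of the jobs and `M` is the
sum of all the numbers of the instance. -/
noncomputable def err (δ : ℝ) (K : ℕ) (P : Inst) : ℝ :=
  2 ^ (P.1.length ^ K + K) * (mag P : ℝ) ^ δ

/-- The schedule is feasible, its energy is at most the budget, and its total flow time is at most
`2 ^ (n ^ K + K) * M ^ δ` more than the least one. -/
def Rough (α δ : ℝ) (K : ℕ) (P : Inst) (S : Sched) : Prop :=
  Feasible α P.1 S ∧ S.energy α ≤ (P.2 : ℝ) ∧ flow P.1 S ≤ opt α P.1 (P.2 : ℝ) + err δ K P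

/-- Some polynomial-time algorithm outputs schedules whose total flow time is at most
`2 ^ (n ^ K + K) * M ^ δ` more than the least one, as lists of phases (duration, speed, job). -/
def RoughSchedules (α δ : ℝ) (K : ℕ) : Prop :=
  ∃ A : List Bool → List Bool, PolyTime A ∧ ∀ P : Inst, Ok P →
    ∃ out : List (ℚ × ℚ × ℕ), A (bits P) = bits out ∧ (∀ x ∈ out, 0 ≤ x.1) ∧
      Rough α δ K P (ofPh (realPh out))

/-- Some polynomial-time algorithm outputs the order in which the jobs are completed in some
schedule whose total flow time is at most `2 ^ (n ^ K + K) * M ^ δ` more than the least one. -/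
def RoughOrders (α δ : ℝ) (K : ℕ) : Prop :=
  ∃ A : List Bool → List Bool, PolyTime A ∧ ∀ P : Inst, Ok P →
    ∃ (out : List ℕ) (S : Sched), A (bits P) = bits out ∧ Rough α δ K P S ∧
      out.Perm (List.range P.1.length) ∧
      out.Pairwise (fun i j => completion P.1 S i ≤ completion P.1 S j)

end Pool.Agent.KS6_76.FTS
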