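import Pool.Graph.R_seed8.ER.Rat
import Pool.Graph.R_seed8.H424R2.SG.PolyA

/-!
# Scaling rational numbers by powers of two, in polynomial time
-/

set_option autoImplicit false

namespace Pool.Agent.KS6_76.FTS

open Pool.Agent.NPC

variable {α : Type} [TEnc α]

theorem pr_num {q : α → ℚ} (hq : NPC.Poly q) : NPC.Poly (fun a => (q a).num) := by
  have h : NPC.Poly (fun a => (((q a).num, (q a).den) : ℤ × ℕ)) := hq
  exact NPC.Poly.fst h

theorem pr_den {q : α → ℚ} (hq : NPC.Poly q) : NPC.Poly (fun a => (q a).den) := by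
  have h : NPC.Poly (fun a => (((q a).num, (q a).den) : ℤ × ℕ)) := hq
  exact NPC.Poly.snd h

theorem pz_neg {z : α → ℤ} (hz : NPC.Poly z) : NPC.Poly (fun a => decide (z a < 0)) := by
  have h : NPC.Poly (fun a => ((decide (z a < 0), (z a).natAbs) : Bool × ℕ)) := hz
  exact NPC.Poly.fst h

theorem pz_abs {z : α → ℤ} (hz : NPC.Poly z) : NPC.Poly (fun a => (z a).natAbs) := by
  have h : NPC.Poly (fun a => ((decide (z a < 0), (z a).natAbs) : Bool × ℕ)) := hz
  exact NPC.Poly.snd h

theorem pz_mk {z : α → ℤ} {b : α → Bool} {n : α → ℕ} (hb : NPC.Poly b) (hn : NPC.Poly n)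
    (h1 : ∀ a, b a = decide (z a < 0)) (h2 : ∀ a, n a = (z a).natAbs) : NPC.Poly z := by
  have h : NPC.Poly (fun a => ((decide (z a < 0), (z a).natAbs) : Bool × ℕ)) :=
    (NPC.Poly.pair hb hn).congr fun a => by rw [h1, h2]
  exact h

theorem pr_mk {z : α → ℤ} {d : α → ℕ} (hz : NPC.Poly z) (hd : NPC.Poly d) (h0 : ∀ a, d a ≠ 0) :
    NPC.Poly (fun a => mkRat (z a) (d a)) := by
  have hg : NPC.Poly (fun a => Nat.gcd (d a) (z a).natAbs) := NPC.Poly.gcd hd (pz_abs hz)
  have hgp : ∀ a, 0 < Nat.gcd (d a) (z a).natAbs := fun a =>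
    Nat.gcd_pos_of_pos_left _ (Nat.pos_of_ne_zero (h0 a))
  have hdv : ∀ a, ((Nat.gcd (d a) (z a).natAbs : ℕ) : ℤ) ∣ z a := fun a =>
    Int.natCast_dvd.2 (Nat.gcd_dvd_right _ _)
  have hn : NPC.Poly (fun a => (mkRat (z a) (d a)).num) := by
    refine pz_mk (b := fun a => decide (z a < 0))
      (n := fun a => (z a).natAbs / Nat.gcd (d a) (z a).natAbs) (pz_neg hz)
      (NPC.Poly.div (pz_abs hz) hg) (fun a => ?_) (fun a => ?_)
    · rw [Rat.num_mkRat, if_neg (h0 a)]
      obtain ⟨k, hk⟩ := hdv a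
      have hp : (0 : ℤ) < ((Nat.gcd (d a) (z a).natAbs : ℕ) : ℤ) := by exact_mod_cast hgp a
      have e : z a / ((Nat.gcd (d a) (z a).natAbs : ℕ) : ℤ) = k := 
        Int.ediv_eq_of_eq_mul_right hp.ne' hk
      rw [e]
      have : z a < 0 ↔ k < 0 := by
        constructor
        · intro h
          by_contra hc
          push Not at hc
          rw [hk] at h
          have := mul_nonneg hp.le hc
          omega
        · intro h
          rw [hk]
          exact mul_neg_of_pos_of_neg hp h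
      exact decide_eq_decide.2 this
    · rw [Rat.num_mkRat, if_neg (h0 a), Int.natAbs_ediv_of_dvd (hdv a)]
      simp
  have hD : NPC.Poly (fun a => (mkRat (z a) (d a)).den) :=
    (NPC.Poly.div hd hg).congr fun a => by rw [Rat.den_mkRat, if_neg (h0 a)]
  have h : NPC.Poly (fun a => (((mkRat (z a) (d a)).num, (mkRat (z a) (d a)).den) : ℤ × ℕ)) :=
    NPC.Poly.pair hn hD
  exact h

theorem poly_up {m : α → ℕ} {q : α → ℚ} (hm : UPoly m) (hq : NPC.Poly q) :
    NPC.Poly (fun a => 2 ^ m a * q a) := by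
  have h2 := Pool.Agent.H424R2.SG.PolyA.poly_two_pow hm
  have hz : NPC.Poly (fun a => (2 : ℤ) ^ m a * (q a).num) := by
    refine pz_mk (pz_neg (pr_num hq)) (NPC.Poly.mul h2 (pz_abs (pr_num hq))) (fun a => ?_)
      (fun a => ?_)
    · have hp : (0 : ℤ) < 2 ^ m a := by positivity
      refine decide_eq_decide.2 ⟨fun h => mul_neg_of_pos_of_neg hp h, fun h => ?_⟩
      by_contra hc
      push Not at hc
      have := mul_nonneg hp.le hc
      omega
    · rw [Int.natAbs_mul, Int.natAbs_pow]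
      rfl
  refine (pr_mk hz (pr_den hq) (fun a => (q a).den_nz)).congr fun a => ?_
  rw [Rat.mkRat_eq_div]
  push_cast
  rw [mul_div_assoc, Rat.num_div_den]

theorem poly_down {m : α → ℕ} {q : α → ℚ} (hm : UPoly m) (hq : NPC.Poly q) :
    NPC.Poly (fun a => q a / 2 ^ m a) := by
  have h2 := Pool.Agent.H424R2.SG.PolyA.poly_two_pow hm
  refine (pr_mk (d := fun a => (q a).den * 2 ^ m a) (pr_num hq)
    (NPC.Poly.mul (pr_den hq) h2) (fun a => ?_)).congr fun a => ?_
  · exact Nat.mul_ne_zero (q a).den_nz (by positivity)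
  · rw [Rat.mkRat_eq_div]
    push_cast
    rw [← div_div, Rat.num_div_den]

end Pool.Agent.KS6_76.FTS
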