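import Pool.Graph.R_pool_sql_team_seeded_f72693b1.W989.FT.Main

/-!
# Scaling of instances and schedules
-/

set_option autoImplicit false

namespace Pool.Agent.KS6_76.FTS

open MeasureTheory Set Pool.Agent.NPC Pool.Agent.W989.FT

/-- the schedule slowed down by the factor `c` (the speeds are the same) -/
noncomputable def slow (c : ℝ) (S : Sched) : Sched := ⟨fun t => S.speed (t / c), fun t => S.job (t / c)⟩

/-- `J'` is `J` with all numbers multiplied by `c` -/
structure Scaled (c : ℝ) (J J' : Jobs) : Prop where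
  len : J'.length = J.length
  rel : ∀ i < J.length, rel J' i = c * rel J i
  wrk : ∀ i < J.length, wrk J' i = c * wrk J i

theorem Scaled.symm {c : ℝ} (hc : 0 < c) {J J' : Jobs} (h : Scaled c J J') : Scaled c⁻¹ J' J := by
  refine ⟨h.len.symm, fun i hi => ?_, fun i hi => ?_⟩
  · rw [h.rel i (h.len ▸ hi), ← mul_assoc, inv_mul_cancel₀ hc.ne', one_mul]
  · rw [h.wrk i (h.len ▸ hi), ← mul_assoc, inv_mul_cancel₀ hc.ne', one_mul]

theorem slow_slow {c : ℝ} (hc : 0 < c) (S : Sched) : slow c⁻¹ (slow c S) = S := by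
  unfold slow
  have h : ∀ t : ℝ, t / c⁻¹ / c = t := fun t => by
    rw [div_inv_eq_mul, mul_div_assoc, div_self hc.ne', mul_one]
  simp only [h]

theorem work_slow {c : ℝ} (hc : 0 < c) (S : Sched) (i : ℕ) (T : ℝ) :
    (slow c S).work i T = c * S.work i (T / c) := by
  unfold Sched.work slow
  have h := intervalIntegral.integral_comp_div (a := 0) (b := T) (c := c)
    (fun t => if S.job t = i then S.speed t else 0) hc.ne'
  simp only [zero_div, smul_eq_mul] at h
  exact h

theorem energy_slow {c α : ℝ} (hc : 0 < c) (S : Sched) :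
    (slow c S).energy α = c * S.energy α := by
  unfold Sched.energy slow
  have h := integral_comp_mul_left_Ioi (fun t => S.speed t ^ α) 0 (inv_pos.2 hc)
  simp only [mul_zero, inv_inv, smul_eq_mul] at h
  rw [← h]
  refine integral_congr_ae (Filter.Eventually.of_forall fun t => ?_)
  simp only
  rw [inv_mul_eq_div]

theorem feasible_slow {c α : ℝ} (hc : 0 < c) {J J' : Jobs} (hJ : Scaled c J J') {S : Sched}
    (hS : Feasible α J S) : Feasible α J' (slow c S) := by
  refine ⟨?_, ?_, fun t => hS.nonneg _, ?_, ?_, ?_⟩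
  · exact hS.meas_speed.comp (measurable_id.div_const c)
  · exact hS.meas_job.comp (measurable_id.div_const c)
  · have h := (integrableOn_Ioi_comp_mul_left_iff (fun t => S.speed t ^ α) 0 (inv_pos.2 hc)).2
      (by rw [mul_zero]; exact hS.energy_fin)
    refine h.congr_fun (fun t _ => ?_) measurableSet_Ioi
    simp only [slow]
    rw [inv_mul_eq_div]
  · intro t ht hs
    obtain ⟨h1, h2, h3⟩ := hS.ok (t / c) (div_nonneg ht hc.le) hs
    refine ⟨by rw [hJ.len]; exact h1, ?_, ?_⟩
    · show rel J' (S.job (t / c)) ≤ t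
      rw [hJ.rel _ h1]
      rwa [le_div_iff₀' hc] at h2
    · show (slow c S).work (S.job (t / c)) t < wrk J' (S.job (t / c))
      rw [hJ.wrk _ h1, work_slow hc]
      exact mul_lt_mul_of_pos_left h3 hc
  · intro i hi
    rw [hJ.len] at hi
    obtain ⟨T, hT, h⟩ := hS.fin i hi
    refine ⟨c * T, mul_nonneg hc.le hT, ?_⟩
    rw [hJ.wrk i hi, work_slow hc, mul_div_cancel_left₀ _ hc.ne']
    exact mul_le_mul_of_nonneg_left h hc.le

theorem completion_slow {c : ℝ} (hc : 0 < c) {J J' : Jobs} (hJ : Scaled c J J') (S : Sched)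
    {i : ℕ} (hi : i < J.length) : completion J' (slow c S) i = c * completion J S i := by
  unfold completion
  rw [← smul_eq_mul, ← Real.sInf_smul_of_nonneg hc.le]
  congr 1
  ext T
  simp only [mem_setOf_eq, Set.mem_smul_set, smul_eq_mul]
  rw [hJ.wrk i hi, work_slow hc]
  constructor
  · rintro ⟨h1, h2⟩
    refine ⟨T / c, ⟨div_nonneg h1 hc.le, le_of_mul_le_mul_left h2 hc⟩, ?_⟩
    rw [mul_div_cancel₀ _ hc.ne']
  · rintro ⟨T', ⟨h1, h2⟩, rfl⟩
    refine ⟨mul_nonneg hc.le h1, ?_⟩
    rw [mul_div_cancel_left₀ _ hc.ne']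
    exact mul_le_mul_of_nonneg_left h2 hc.le

theorem flow_slow {c : ℝ} (hc : 0 < c) {J J' : Jobs} (hJ : Scaled c J J') (S : Sched) :
    flow J' (slow c S) = c * flow J S := by
  unfold flow
  rw [hJ.len, Finset.mul_sum]
  refine Finset.sum_congr rfl fun i hi => ?_
  rw [Finset.mem_range] at hi
  rw [completion_slow hc hJ S hi, hJ.rel i hi]
  ring

theorem opt_scaled {c α : ℝ} (hc : 0 < c) {J J' : Jobs} (hJ : Scaled c J J') (E : ℝ) :
    opt α J' (c * E) = c * opt α J E := by
  unfold opt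
  rw [← smul_eq_mul (a := c) (b := sInf _), ← Real.sInf_smul_of_nonneg hc.le]
  congr 1
  ext F
  simp only [mem_setOf_eq, Set.mem_smul_set, smul_eq_mul]
  constructor
  · rintro ⟨S, h1, h2, rfl⟩
    have hc' : 0 < c⁻¹ := inv_pos.2 hc
    refine ⟨flow J (slow c⁻¹ S), ⟨slow c⁻¹ S, feasible_slow hc' (hJ.symm hc) h1, ?_, rfl⟩, ?_⟩
    · rw [energy_slow hc', inv_mul_le_iff₀ hc]
      exact h2
    · rw [flow_slow hc' (hJ.symm hc), ← mul_assoc, mul_inv_cancel₀ hc.ne', one_mul]
  · rintro ⟨F', ⟨S, h1, h2, rfl⟩, rfl⟩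
    refine ⟨slow c S, feasible_slow hc hJ h1, ?_, flow_slow hc hJ S⟩
    rw [energy_slow hc]
    exact mul_le_mul_of_nonneg_left h2 hc.le

/-- phases with durations multiplied by `c` -/
noncomputable def scPh (c : ℝ) (l : List (ℝ × ℝ × ℕ)) : List (ℝ × ℝ × ℕ) :=
  l.map fun x => (c * x.1, x.2.1, x.2.2)

theorem phAt_scPh {c : ℝ} (hc : 0 < c) (l : List (ℝ × ℝ × ℕ)) (t : ℝ) :
    phAt (scPh c l) t = phAt l (t / c) := by
  induction l generalizing t with
  | nil => rfl
  | cons x l ih =>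
    simp only [scPh, List.map_cons, phAt] at ih ⊢
    rw [ih]
    have h1 : t < c * x.1 ↔ t / c < x.1 := by rw [div_lt_iff₀' hc]
    have h2 : (t - c * x.1) / c = t / c - x.1 := by
      rw [sub_div, mul_div_cancel_left₀ _ hc.ne']
    simp only [h1, h2]

theorem ofPh_scPh {c : ℝ} (hc : 0 < c) (l : List (ℝ × ℝ × ℕ)) : ofPh (scPh c l) = slow c (ofPh l) := by
  unfold ofPh slow
  simp only [phAt_scPh hc]

end Pool.Agent.KS6_76.FTS
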