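import Pool.Agent.KS6_76.FTS.Defs
import Pool.Agent.KS6_76.FTS.Scale
import Pool.Agent.KS6_76.FTS.PolyRat

/-!
# The self-reduction: large errors are as good as small ones
-/

set_option autoImplicit false

namespace Pool.Agent.KS6_76.FTS

open Pool.Agent.NPC Pool.Agent.W989.FT

/-- all the numbers multiplied by `2 ^ m` -/
def scale (m : ℕ) (P : Inst) : Inst :=
  (P.1.map fun j => (2 ^ m * j.1, 2 ^ m * j.2), 2 ^ m * P.2)

theorem poly_scale {β : Type} [TEnc β] {m : β → ℕ} {P : β → Inst} (hm : UPoly m)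
    (hP : NPC.Poly P) : NPC.Poly (fun b => scale (m b) (P b)) := by
  unfold scale
  refine NPC.Poly.pair ?_ (poly_up hm (NPC.Poly.snd hP))
  refine NPC.Poly.map (F := fun b (j : ℚ × ℚ) => (2 ^ m b * j.1, 2 ^ m b * j.2))
    (NPC.Poly.fst hP) ?_
  have hm' : UPoly (fun p : β × (ℚ × ℚ) => m p.1) := hm.comp (NPC.Poly.fst NPC.Poly.id)
  exact NPC.Poly.pair (poly_up hm' (NPC.Poly.fst (NPC.Poly.snd NPC.Poly.id)))
    (poly_up hm' (NPC.Poly.snd (NPC.Poly.snd NPC.Poly.id)))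

theorem length_scale (m : ℕ) (P : Inst) : (scale m P).1.length = P.1.length := by
  simp [scale]

theorem ok_scale (m : ℕ) {P : Inst} (h : Ok P) : Ok (scale m P) := by
  have hp : (0 : ℚ) < 2 ^ m := by positivity
  refine ⟨fun j hj => ?_, mul_pos hp h.2⟩
  simp only [scale, List.mem_map] at hj
  obtain ⟨i, hi, rfl⟩ := hj
  exact ⟨mul_nonneg hp.le (h.1 i hi).1, mul_pos hp (h.1 i hi).2⟩

theorem mag_scale (m : ℕ) (P : Inst) : mag (scale m P) = 2 ^ m * mag P := by
  unfold mag scale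
  simp only [List.map_map, mul_add]
  congr 1
  induction P.1 with
  | nil => simp
  | cons j l ih =>
    simp only [List.map_cons, List.sum_cons, Function.comp] at ih ⊢
    rw [ih]
    ring

theorem scaled_scale (m : ℕ) (P : Inst) : Scaled (2 ^ m) P.1 (scale m P).1 := by
  refine ⟨length_scale m P, fun i hi => ?_, fun i hi => ?_⟩
  · unfold rel scale
    simp only
    rw [List.getD_eq_getElem _ _ hi, List.getD_eq_getElem _ _ (by simpa using hi),
      List.getElem_map]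
    push_cast
    rfl
  · unfold wrk scale
    simp only
    rw [List.getD_eq_getElem _ _ hi, List.getD_eq_getElem _ _ (by simpa using hi),
      List.getElem_map]
    push_cast
    rfl

/-- A rational number is at most `2 ^ (its size)`. -/
theorem rat_le (q : ℚ) : q ≤ 2 ^ sz q := by
  have h1 : q ≤ (q.num.natAbs : ℚ) := by
    rcases le_or_gt q 0 with h | h
    · exact h.trans (by positivity)
    · have h2 : (q.num.natAbs : ℚ) = q.num := by
        have : 0 ≤ q.num := Rat.num_nonneg.2 h.le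
        rw [← Int.cast_natCast, Int.natAbs_of_nonneg this]
      rw [h2]
      have h3 := Rat.mul_den_eq_num q
      rw [← h3]
      have h4 : (1 : ℚ) ≤ q.den := by exact_mod_cast q.den_pos
      nlinarith
  have h2 : sz q.num.natAbs ≤ sz q := by
    have e : sz q = sz ((q.num, q.den) : ℤ × ℕ) := rfl
    have e2 : sz q.num = sz ((decide (q.num < 0), q.num.natAbs) : Bool × ℕ) := rfl
    rw [e, sz_pair, e2, sz_pair]
    omega
  have h3 := size_le_sz q.num.natAbs
  have h4 := Nat.lt_size_self q.num.natAbs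
  have h5 : q.num.natAbs ≤ 2 ^ sz q :=
    h4.le.trans (Nat.pow_le_pow_right (by norm_num) (by omega))
  calc q ≤ (q.num.natAbs : ℚ) := h1
    _ ≤ ((2 ^ sz q : ℕ) : ℚ) := by exact_mod_cast h5
    _ = 2 ^ sz q := by push_cast; rfl

theorem two_pow_add_le {a b : ℕ} {x y : ℚ} (hx : x ≤ 2 ^ a) (hy : y ≤ 2 ^ b) :
    x + y ≤ 2 ^ (a + b + 1) := by
  have h1 : (1 : ℚ) ≤ 2 ^ a := one_le_pow₀ (by norm_num)
  have h2 : (1 : ℚ) ≤ 2 ^ b := one_le_pow₀ (by norm_num)
  rw [pow_succ, pow_add]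
  nlinarith

theorem sum_le (l : Jobs) : (l.map fun j => j.1 + j.2).sum ≤ 2 ^ sz l := by
  induction l with
  | nil => simp
  | cons j l ih =>
    rw [List.map_cons, List.sum_cons, sz_list_cons]
    refine two_pow_add_le ?_ ih
    obtain ⟨r, w⟩ := j
    rw [sz_pair]
    exact two_pow_add_le (rat_le r) (rat_le w)

theorem mag_le (P : Inst) : mag P ≤ 2 ^ sz P := by
  obtain ⟨l, E⟩ := P
  rw [sz_pair, mag, add_comm]
  exact two_pow_add_le (sum_le l) (rat_le E)

theorem mag_pos {P : Inst} (h : Ok P) : 0 < mag P := by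
  unfold mag
  refine add_pos_of_pos_of_nonneg h.2 (List.sum_nonneg ?_)
  intro x hx
  obtain ⟨j, hj, rfl⟩ := List.mem_map.1 hx
  exact add_nonneg (h.1 j hj).1 (h.1 j hj).2.le

/-- the exponent of the scaling -/
def ex (e K : ℕ) (I : Inp) : ℕ := e * ((bits I).length ^ K + K + 2 * (bits I).length)

theorem upoly_ex (e K : ℕ) : UPoly (ex e K) := by
  have h : UPoly (fun I : Inp => (bits I).length) := UPoly.length (poly_bits' NPC.Poly.id)
  have h2 := h.eval (Polynomial.C e * (Polynomial.X ^ K + Polynomial.C K +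
    Polynomial.C 2 * Polynomial.X))
  have e3 : (fun I : Inp => (Polynomial.C e * (Polynomial.X ^ K + Polynomial.C K +
      Polynomial.C 2 * Polynomial.X) : Polynomial ℕ).eval (bits I).length) = ex e K := by
    funext I
    simp [ex]
  rw [e3] at h2
  exact h2

theorem err_scale {δ : ℝ} (h0 : 0 ≤ δ) (h1 : δ < 1) {e : ℕ} (he : 1 ≤ e * (1 - δ)) (K : ℕ)
    (I : Inp) (hI : Valid I) : err δ K (scale (ex e K I) I.1) ≤
      2 ^ ex e K I * (1 / 2) ^ I.2.length := by
  obtain ⟨N, hN⟩ : ∃ N, N = (bits I).length ^ K + K + 2 * (bits I).length := ⟨_, rfl⟩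
  have hex : ex e K I = e * N := by rw [hN]; rfl
  obtain ⟨m, hm⟩ : ∃ m, m = ex e K I := ⟨_, rfl⟩
  rw [← hm]
  have hs : (bits I).length = sz I.1 + sz I.2 + 1 := by
    obtain ⟨P, k⟩ := I
    rw [bits_length, sz_pair]
  have hk : I.2.length ≤ (bits I).length := by
    have := length_lt_sz I.2
    omega
  have hn : I.1.1.length ≤ (bits I).length := by
    have h2 := length_lt_sz I.1.1
    have h3 : sz I.1 = sz I.1.1 + sz I.1.2 + 1 := by
      obtain ⟨⟨a, b⟩, k⟩ := I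
      rw [sz_pair]
    omega
  have hM0 : (0 : ℝ) < (mag I.1 : ℝ) := by exact_mod_cast mag_pos (P := I.1) hI
  have hM : (mag I.1 : ℝ) ≤ 2 ^ (bits I).length := by
    have h4 : mag I.1 ≤ 2 ^ (bits I).length :=
      (mag_le I.1).trans (pow_le_pow_right₀ (by norm_num) (by omega))
    exact_mod_cast h4
  -- the power of the magnitude
  have hMδ : (mag I.1 : ℝ) ^ δ ≤ 2 ^ (bits I).length := by
    rcases le_total (mag I.1 : ℝ) 1 with h | h
    · exact (Real.rpow_le_one hM0.le h h0).trans (one_le_pow₀ (by norm_num))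
    · calc (mag I.1 : ℝ) ^ δ ≤ (mag I.1 : ℝ) ^ (1 : ℝ) :=
          Real.rpow_le_rpow_of_exponent_le h h1.le
        _ = mag I.1 := Real.rpow_one _
        _ ≤ _ := hM
  have h2m : (0 : ℝ) < 2 ^ m := by positivity
  -- the error of the scaled instance
  have e1 : err δ K (scale m I.1) =
      2 ^ (I.1.1.length ^ K + K) * ((2 : ℝ) ^ m) ^ δ * (mag I.1 : ℝ) ^ δ := by
    unfold err
    rw [length_scale, mag_scale]
    push_cast
    rw [Real.mul_rpow h2m.le hM0.le]
    ring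
  have e2 : ((2 : ℝ) ^ m) ^ δ * 2 ^ N ≤ 2 ^ m := by
    rw [← Real.rpow_natCast 2 m, ← Real.rpow_natCast 2 N, ← Real.rpow_mul (by norm_num),
      ← Real.rpow_add (by norm_num)]
    refine Real.rpow_le_rpow_of_exponent_le (by norm_num) ?_
    rw [hm, hex]
    push_cast
    have h5 : (0 : ℝ) ≤ (N : ℝ) := Nat.cast_nonneg N
    nlinarith
  have e3 : (2 : ℝ) ^ (I.1.1.length ^ K + K) * 2 ^ (bits I).length * 2 ^ I.2.length ≤ 2 ^ N := by
    rw [← pow_add, ← pow_add]
    refine pow_le_pow_right₀ (by norm_num) ?_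
    have h6 : I.1.1.length ^ K ≤ (bits I).length ^ K := Nat.pow_le_pow_left hn K
    omega
  have h7 : (0 : ℝ) < 2 ^ I.2.length := by positivity
  have e4 : (1 / 2 : ℝ) ^ I.2.length = (2 ^ I.2.length)⁻¹ := by
    rw [one_div, inv_pow]
  rw [e4, ← div_eq_mul_inv, le_div_iff₀ h7, e1]
  have h8 : (0 : ℝ) ≤ ((2 : ℝ) ^ m) ^ δ := by positivity
  calc 2 ^ (I.1.1.length ^ K + K) * ((2 : ℝ) ^ m) ^ δ * (mag I.1 : ℝ) ^ δ * 2 ^ I.2.length
      ≤ 2 ^ (I.1.1.length ^ K + K) * ((2 : ℝ) ^ m) ^ δ * 2 ^ (bits I).length * 2 ^ I.2.length := by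
        gcongr
    _ = ((2 : ℝ) ^ m) ^ δ * (2 ^ (I.1.1.length ^ K + K) * 2 ^ (bits I).length * 2 ^ I.2.length) := by
        ring
    _ ≤ ((2 : ℝ) ^ m) ^ δ * 2 ^ N := by gcongr
    _ ≤ 2 ^ m := e2

/-- A rough solution of the scaled instance is a good solution of the instance. -/
theorem nearOpt_of_rough {α δ : ℝ} (h0 : 0 ≤ δ) (h1 : δ < 1) {e : ℕ} (he : 1 ≤ e * (1 - δ))
    {K : ℕ} {I : Inp} (hI : Valid I) {S : Sched}
    (hS : Rough α δ K (scale (ex e K I) I.1) S) :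
    NearOpt α I (slow (2 ^ ex e K I)⁻¹ S) := by
  obtain ⟨r1, r2, r3⟩ := hS
  have hE := err_scale h0 h1 he K I hI
  obtain ⟨m, hm⟩ : ∃ m, m = ex e K I := ⟨_, rfl⟩
  rw [← hm] at r1 r2 r3 hE ⊢
  have hc : (0 : ℝ) < 2 ^ m := by positivity
  have hc' : (0 : ℝ) < (2 ^ m)⁻¹ := inv_pos.2 hc
  have hJ := scaled_scale m I.1
  have hJ' := hJ.symm hc
  have e2 : (((scale m I.1).2 : ℚ) : ℝ) = 2 ^ m * (I.1.2 : ℝ) := by
    simp [scale]
  rw [e2] at r2 r3
  rw [opt_scaled hc hJ] at r3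
  refine ⟨feasible_slow hc' hJ' r1, ?_, ?_⟩
  · rw [energy_slow hc', inv_mul_le_iff₀ hc]
    exact r2
  · rw [flow_slow hc' hJ', inv_mul_le_iff₀ hc]
    linarith

theorem exists_e {δ : ℝ} (h1 : δ < 1) : ∃ e : ℕ, 1 ≤ (e : ℝ) * (1 - δ) := by
  obtain ⟨e, he⟩ := exists_nat_ge (1 / (1 - δ))
  refine ⟨e, ?_⟩
  have : 0 < 1 - δ := by linarith
  rwa [div_le_iff₀ this] at he

theorem orders_of_rough {α δ : ℝ} (h0 : 0 ≤ δ) (h1 : δ < 1) {K : ℕ} (h : RoughOrders α δ K) :
    ComputesOrders α := by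
  obtain ⟨A, hA, hI⟩ := h
  obtain ⟨e, he⟩ := exists_e h1
  have hA' : NPC.Poly A := PIso.poly_iff.2 hA
  refine ⟨fun x => (unbits Inp x).elim [] (fun I => A (bits (scale (ex e K I) I.1))), ?_, ?_⟩
  · refine PIso.poly_iff.1 (NPC.Poly.optElim
      (h := fun _ I => A (bits (scale (ex e K I) I.1))) poly_unbits (NPC.Poly.const _) ?_)
    refine hA'.comp (poly_bits' (poly_scale ((upoly_ex e K).comp (NPC.Poly.snd NPC.Poly.id)) ?_))
    exact NPC.Poly.fst (NPC.Poly.snd NPC.Poly.id)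
  · intro I hv
    obtain ⟨out, S, a1, a2, a3, a4⟩ := hI (scale (ex e K I) I.1) (ok_scale _ hv)
    refine ⟨out, slow (2 ^ ex e K I)⁻¹ S, ?_, nearOpt_of_rough h0 h1 he hv a2, ?_, ?_⟩
    · simp only [unbits_bits, Option.elim]
      exact a1
    · rwa [length_scale] at a3
    · have hc : (0 : ℝ) < 2 ^ ex e K I := by positivity
      have hJ' := (scaled_scale (ex e K I) I.1).symm hc
      refine a4.imp_of_mem fun {i j} hi hj hij => ?_
      have hi' : i < (scale (ex e K I) I.1).1.length := List.mem_range.1 (a3.mem_iff.1 hi)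
      have hj' : j < (scale (ex e K I) I.1).1.length := List.mem_range.1 (a3.mem_iff.1 hj)
      rw [completion_slow (inv_pos.2 hc) hJ' S hi', completion_slow (inv_pos.2 hc) hJ' S hj']
      exact mul_le_mul_of_nonneg_left hij (inv_pos.2 hc).le

/-- durations divided by `2 ^ m` -/
def dn (m : ℕ) (l : List (ℚ × ℚ × ℕ)) : List (ℚ × ℚ × ℕ) := l.map fun x => (x.1 / 2 ^ m, x.2)

theorem poly_dn {β : Type} [TEnc β] {m : β → ℕ} {l : β → List (ℚ × ℚ × ℕ)} (hm : UPoly m)
    (hl : NPC.Poly l) : NPC.Poly (fun b => dn (m b) (l b)) := by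
  unfold dn
  refine NPC.Poly.map (F := fun b (x : ℚ × ℚ × ℕ) => (x.1 / 2 ^ m b, x.2)) hl ?_
  have hm' : UPoly (fun p : β × (ℚ × ℚ × ℕ) => m p.1) := hm.comp (NPC.Poly.fst NPC.Poly.id)
  exact NPC.Poly.pair (poly_down hm' (NPC.Poly.fst (NPC.Poly.snd NPC.Poly.id)))
    (NPC.Poly.snd (NPC.Poly.snd NPC.Poly.id))

theorem realPh_dn (m : ℕ) (l : List (ℚ × ℚ × ℕ)) : realPh (dn m l) = scPh (2 ^ m)⁻¹ (realPh l) := by
  unfold realPh dn scPh
  rw [List.map_map, List.map_map]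
  refine List.map_congr_left fun x _ => ?_
  simp only [Function.comp]
  push_cast
  rw [div_eq_inv_mul]

theorem schedules_of_rough {α δ : ℝ} (h0 : 0 ≤ δ) (h1 : δ < 1) {K : ℕ}
    (h : RoughSchedules α δ K) : ComputesSchedules α := by
  obtain ⟨A, hA, hI⟩ := h
  obtain ⟨e, he⟩ := exists_e h1
  have hA' : NPC.Poly A := PIso.poly_iff.2 hA
  refine ⟨fun x => (unbits Inp x).elim [] (fun I =>
    (unbits (List (ℚ × ℚ × ℕ)) (A (bits (scale (ex e K I) I.1)))).elim []
      (fun out => bits (dn (ex e K I) out))), ?_, ?_⟩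
  · refine PIso.poly_iff.1 (NPC.Poly.optElim (h := fun _ I =>
      (unbits (List (ℚ × ℚ × ℕ)) (A (bits (scale (ex e K I) I.1)))).elim []
      (fun out => bits (dn (ex e K I) out))) poly_unbits (NPC.Poly.const _) ?_)
    have hM : UPoly (fun p : List Bool × Inp => ex e K p.2) :=
      (upoly_ex e K).comp (NPC.Poly.snd NPC.Poly.id)
    refine NPC.Poly.optElim (h := fun (p : List Bool × Inp) out => bits (dn (ex e K p.2) out))
      ?_ (NPC.Poly.const _) ?_
    · exact poly_unbits.comp (hA'.comp (poly_bits' (poly_scale hM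
        (NPC.Poly.fst (NPC.Poly.snd NPC.Poly.id)))))
    · exact poly_bits' (poly_dn (hM.comp (NPC.Poly.fst NPC.Poly.id)) (NPC.Poly.snd NPC.Poly.id))
  · intro I hv
    obtain ⟨out, a1, a2, a3⟩ := hI (scale (ex e K I) I.1) (ok_scale _ hv)
    have hc : (0 : ℝ) < 2 ^ ex e K I := by positivity
    refine ⟨dn (ex e K I) out, ?_, ?_, ?_⟩
    · simp only [unbits_bits, Option.elim, a1]
    · intro x hx
      obtain ⟨y, hy, rfl⟩ := List.mem_map.1 hx
      exact div_nonneg (a2 y hy) (by positivity)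
    · rw [realPh_dn, ofPh_scPh (inv_pos.2 hc)]
      exact nearOpt_of_rough h0 h1 he hv a3

/-- Even very rough solutions are hard to compute. -/
theorem main_rough {α δ : ℝ} (hα : 1 < α) (h0 : 0 ≤ δ) (h1 : δ < 1) (K : ℕ)
    (h : RoughSchedules α δ K ∨ RoughOrders α δ K) : ∀ L : Set (List Bool), InNP L → InP L := by
  refine main hα ?_
  rcases h with h | h
  · exact Or.inl (schedules_of_rough h0 h1 h)
  · exact Or.inr (orders_of_rough h0 h1 h)

end Pool.Agent.KS6_76.FTS
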